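import Mathlib

namespace Pool.Agent.Results.MP_836f85_an.Neg

open Set Finset

/-- Cox-de Boor recursion: `Bs ξ p i` is the `i`-th B-spline of degree `p` (indices from 0) -/
noncomputable def Bs (ξ : ℕ → ℝ) : ℕ → ℕ → ℝ → ℝ
  | 0, i, x => if ξ i ≤ x ∧ x < ξ (i + 1) then 1 else 0
  | p + 1, i, x => (x - ξ i) / (ξ (i + p + 1) - ξ i) * Bs ξ p i x +
      (ξ (i + p + 2) - x) / (ξ (i + p + 2) - ξ (i + 1)) * Bs ξ p (i + 1) x

lemma form (t : ℝ) (ht : t ∈ Set.Icc (2 : ℝ) 3) :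
    Bs (fun i => i) 2 0 t = (3 - t) ^ 2 / 2 ∧
    Bs (fun i => i) 2 1 t = 1 / 2 + (t - 2) - (t - 2) ^ 2 ∧
    Bs (fun i => i) 2 2 t = (t - 2) ^ 2 / 2 := by
  obtain ⟨h1, h2⟩ := ht
  rcases h2.eq_or_lt with rfl | h2
  · simp only [Bs]; norm_num
  · have a1 : ¬ t < 1 := by linarith
    have a2 : ¬ t < 2 := by linarith
    have a3 : ¬ 3 ≤ t := by linarith
    have a4 : ¬ 4 ≤ t := by linarith
    simp only [Bs]
    norm_num [h1, h2, a1, a2, a3, a4]
    refine ⟨?_, ?_, ?_⟩ <;> ring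

lemma poly (a b c d e : ℝ) : ∫ t in (2 : ℝ)..3, (a + b * t + c * t ^ 2 + d * t ^ 3 + e * t ^ 4) =
    a + b * (5 / 2) + c * (19 / 3) + d * (65 / 4) + e * (211 / 5) := by
  rw [intervalIntegral.integral_eq_sub_of_hasDerivAt (f := fun t =>
    a * t + b / 2 * t ^ 2 + c / 3 * t ^ 3 + d / 4 * t ^ 4 + e / 5 * t ^ 5)]
  · ring
  · intro t _
    have h := fun n => hasDerivAt_pow n t
    refine ((((((hasDerivAt_id t).const_mul a).add ((h 2).const_mul (b / 2))).add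
      ((h 3).const_mul (c / 3))).add ((h 4).const_mul (d / 4))).add
      ((h 5).const_mul (e / 5))).congr_deriv ?_
    norm_num; ring
  · exact Continuous.intervalIntegrable (by fun_prop) _ _

theorem result : ∃ (p n : ℕ) (ξ : ℕ → ℝ) (ρ : ℝ → ℝ) (x w γ : Fin n → ℝ) (M : ℝ),
    1 ≤ p ∧ p < n ∧ StrictMono ξ ∧ Continuous ρ ∧ (∀ t, 0 < ρ t) ∧
    (∀ t ∈ Set.Icc (ξ p) (ξ n), ∑ j : Fin n, Bs ξ p j t = 1) ∧
    StrictMono x ∧ (∀ i, x i ∈ Set.Icc (ξ p) (ξ n)) ∧ (∀ i : Fin n, 0 < Bs ξ p i (x i)) ∧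
    (∀ j : Fin n, ∑ k, w k * Bs ξ p j (x k) = ∫ t in (ξ p)..(ξ n), ρ t * Bs ξ p j t) ∧
    (∀ i : Fin n, ∑ j, γ j * Bs ξ p j (x i) = (-1) ^ (i : ℕ)) ∧
    (∀ t ∈ Set.Icc (ξ p) (ξ n), |∑ j, γ j * Bs ξ p j t| ≤ M) ∧
    M * ∫ t in (ξ p)..(ξ n), ρ t < ∑ k, |w k| := by
  have f0 := form 2 (by norm_num)
  have f1 := form (5 / 2) (by norm_num)
  have f2 := form 3 (by norm_num)
  have hI : ∀ (j : ℕ) (g : ℝ → ℝ), (∀ t ∈ Set.Icc (2 : ℝ) 3, Bs (fun i => i) 2 j t = g t) →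
      ∀ a b c d e : ℝ, (∀ t, ((3 - t) ^ 2 + 1 / 20) * g t =
        a + b * t + c * t ^ 2 + d * t ^ 3 + e * t ^ 4) →
      ∫ t in (2 : ℝ)..3, ((3 - t) ^ 2 + 1 / 20) * Bs (fun i => i) 2 j t =
        a + b * (5 / 2) + c * (19 / 3) + d * (65 / 4) + e * (211 / 5) := by
    intro j g hg a b c d e h
    rw [← poly]
    refine intervalIntegral.integral_congr fun t ht => ?_
    rw [Set.uIcc_of_le (by norm_num)] at ht
    rw [← h, hg t ht]
  refine ⟨2, 3, fun i => i, fun t => (3 - t) ^ 2 + 1 / 20, ![2, 5 / 2, 3],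
    ![19 / 120, 28 / 120, -1 / 120], ![5, -3, 5], 1, by norm_num, by norm_num,
    Nat.strictMono_cast, by fun_prop, fun t => by positivity, fun t ht => ?_, ?_, ?_, ?_, ?_, ?_,
    fun t ht => ?_, ?_⟩
  · have := form t (by simpa using ht)
    simp [Fin.sum_univ_three, this]; ring
  · refine Fin.strictMono_iff_lt_succ.2 fun i => ?_
    fin_cases i <;> simp <;> norm_num
  · intro i; fin_cases i <;> simp <;> norm_num
  · intro i; fin_cases i <;> simp [f0, f1, f2] <;> norm_num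
  · intro j
    have i0 := hI 0 _ (fun t ht => (form t ht).1) (1629 / 40) (-1083 / 20) (1081 / 40) (-6) (1 / 2)
      fun t => by ring
    have i1 := hI 1 _ (fun t ht => (form t ht).2.1) (-1991 / 40) (313 / 4) (-891 / 20) 11 (-1)
      fun t => by ring
    have i2 := hI 2 _ (fun t ht => (form t ht).2.2) (181 / 10) (-301 / 10) (741 / 40) (-5) (1 / 2)
      fun t => by ring
    fin_cases j <;> simp only [Fin.sum_univ_three, Nat.cast_ofNat]
    · rw [i0]; simp [f0, f1, f2]; norm_num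
    · rw [i1]; simp [f0, f1, f2]; norm_num
    · rw [i2]; simp [f0, f1, f2]; norm_num
  · intro i; fin_cases i <;> simp [Fin.sum_univ_three, f0, f1, f2] <;> norm_num
  · have ht' : t ∈ Set.Icc (2 : ℝ) 3 := by simpa using ht
    have := form t ht'
    simp [Fin.sum_univ_three, this, abs_le]
    constructor <;> nlinarith [ht'.1, ht'.2, sq_nonneg (t - 5 / 2)]
  · have := poly (181 / 20) (-6) 1 0 0
    have e : (fun t : ℝ => (3 - t) ^ 2 + 1 / 20) =
      fun t => 181 / 20 + -6 * t + 1 * t ^ 2 + 0 * t ^ 3 + 0 * t ^ 4 := by ext; ring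
    simp only [Nat.cast_ofNat, e, this, Fin.sum_univ_three]
    simp only [Matrix.cons_val]
    norm_num [abs_of_pos, abs_of_neg]

end Pool.Agent.Results.MP_836f85_an.Neg
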